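import Pool.Agent.Q181.UP.Upe

set_option autoImplicit false

open Set MeasureTheory

namespace Pool.Agent.Results.MP_6603ca_an.NoFullSupport

open Pool.Agent.Q181.UP

/-- There is a system `(X, T)` with uniform positive entropy such that every ergodic invariant Borel
probability measure vanishes on some nonempty open set, i.e. its support is a proper closed
subset of `X`. -/
theorem result : ∃ (X : Type) (_ : TopologicalSpace X) (_ : CompactSpace X)
    (_ : TopologicalSpace.MetrizableSpace X) (_ : Nonempty X) (T : X ≃ₜ X),
    IsUPE T ∧ ∀ (_ : MeasurableSpace X) (_ : BorelSpace X) (μ : Measure X),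
      IsProbabilityMeasure μ → Ergodic T μ → ∃ U : Set X, IsOpen U ∧ U.Nonempty ∧ μ U = 0 :=
  ⟨Sub, inferInstance, inferInstance,
    Topology.IsEmbedding.subtypeVal.metrizableSpace, ⟨single⟩, T, upe,
    fun _ _ μ _ hμ => no_full_support μ hμ⟩

end Pool.Agent.Results.MP_6603ca_an.NoFullSupport
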